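import Mathlib
import Pool.Agent.H139R3.CF.Final

set_option autoImplicit false

/-!
# Compressible orbit-universal subshifts for a wide class of groups containing a free group

A compact space `P` with an action of the modular group (free product of cyclic groups of orders
two and three) carries a continuous injection which moves every point inside its orbit and misses
a clopen set meeting every orbit. The points of `P` are written into configurations by a
self-correcting code, which leaves free bits on a region; the compression is then a shift by one
of two group elements, chosen by two bits. Universality comes from a free subgroup which fixes a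
point of the coinduced space.
-/

namespace Pool.Agent.Results.MP_35fb4b_lc.FreeExtensions

open Pool.Agent.H139R3.MS Pool.Agent.H139R3.CF

universe u

/-- The group `G` has a compressible, orbit-universal subshift of `{0,1}^G`. -/
def HasCompressibleUniversal (G : Type) [Group G] : Prop :=
  ∃ K : Set (G → Bool), IsSubshift K ∧ CompressibleOn K ∧ UniversalOn.{u} K

/-- Three classes of countable groups with a compressible orbit-universal subshift: groups with a
subgroup `H`, a homomorphism `θ` from `H` onto the modular group, and a free subgroup of rank two
whose conjugates all meet `H` inside the kernel of `θ`; groups with a normal subgroup `N` such that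
both `N` and the quotient by `N` contain a free group of rank two; groups which map onto the free
group of rank two. -/
theorem result :
    (∀ (G : Type) [Group G] [Countable G] (H : Subgroup G) (θ : H →* Mod)
      (ι : FreeGroup (Fin 2) →* G), Function.Surjective θ → Function.Injective ι →
      (∀ (g : G) (v : FreeGroup (Fin 2)) (hm : g⁻¹ * ι v * g ∈ H),
        θ ⟨g⁻¹ * ι v * g, hm⟩ = 1) → HasCompressibleUniversal.{u} G) ∧
    (∀ (G : Type) [Group G] [Countable G] (N : Subgroup G) [N.Normal]
      (ι : FreeGroup (Fin 2) →* G) (κ : FreeGroup (Fin 2) →* G ⧸ N), Function.Injective ι →
      (∀ v, ι v ∈ N) → Function.Injective κ → HasCompressibleUniversal.{u} G) ∧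
    (∀ (G : Type) [Group G] [Countable G] (π : G →* FreeGroup (Fin 2)), Function.Surjective π →
      HasCompressibleUniversal.{u} G) :=
  ⟨fun _ _ _ _ _ ι hθ hι hcon => coinduced hθ ι hι hcon,
    fun _ _ _ _ _ ι _ hι hN hκ => extension hκ ι hι hN,
    fun _ _ _ π hπ => quotient π hπ⟩

end Pool.Agent.Results.MP_35fb4b_lc.FreeExtensions
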